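import Pool.Agent.W120.WM.Defs

set_option autoImplicit false

open MeasureTheory Filter Topology Set

namespace Pool.Agent.W374.WM

open Pool.Agent.W120.WM

theorem abs_Mx_le {u : ℝ} (hu : 0 ≤ u) : |Mx u| ≤ u := by
  unfold Mx
  calc |∑ n ∈ Finset.Icc 1 ⌊u⌋₊, ((ArithmeticFunction.moebius n : ℤ) : ℝ)|
      ≤ ∑ n ∈ Finset.Icc 1 ⌊u⌋₊, |((ArithmeticFunction.moebius n : ℤ) : ℝ)| :=
        Finset.abs_sum_le_sum_abs _ _
    _ ≤ ∑ _n ∈ Finset.Icc 1 ⌊u⌋₊, (1 : ℝ) := Finset.sum_le_sum fun n _ => by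
        rw [← Int.cast_abs]
        exact_mod_cast ArithmeticFunction.abs_moebius_le_one
    _ = ⌊u⌋₊ := by simp
    _ ≤ u := Nat.floor_le hu

theorem Mx_of_lt {u : ℝ} (hu : u < 1) : Mx u = 0 := by
  unfold Mx
  rw [Nat.floor_eq_zero.2 hu]
  simp

theorem measurable_Mx : Measurable Mx := by
  unfold Mx
  exact (measurable_from_nat (f := fun m : ℕ => ∑ n ∈ Finset.Icc 1 m,
    ((ArithmeticFunction.moebius n : ℤ) : ℝ))).comp Nat.measurable_floor

theorem inv_zeta {s : ℂ} (hs : 1 < s.re) :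
    ∫ u in Ioi (1 : ℝ), ((Mx u : ℝ) : ℂ) * (u : ℂ) ^ (-(s + 1)) = (s * riemannZeta s)⁻¹ := by
  have h0 : s ≠ 0 := by
    intro h; rw [h, Complex.zero_re] at hs; linarith
  have hz : LSeries (fun n => ((ArithmeticFunction.moebius n : ℤ) : ℂ)) s =
      (riemannZeta s)⁻¹ := by
    have h1 := ArithmeticFunction.LSeries_zeta_mul_Lseries_moebius hs
    rw [ArithmeticFunction.LSeries_zeta_eq_riemannZeta hs] at h1
    exact eq_inv_of_mul_eq_one_right h1
  have hO : (fun n : ℕ => ∑ k ∈ Finset.Icc 1 n, ((ArithmeticFunction.moebius k : ℤ) : ℂ))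
      =O[atTop] fun n : ℕ => (n : ℝ) ^ (1 : ℝ) := by
    refine Asymptotics.IsBigO.of_bound 1 (Filter.Eventually.of_forall fun n => ?_)
    rw [Real.rpow_one, one_mul, Real.norm_eq_abs, abs_of_nonneg (Nat.cast_nonneg n)]
    calc ‖∑ k ∈ Finset.Icc 1 n, ((ArithmeticFunction.moebius k : ℤ) : ℂ)‖
        ≤ ∑ k ∈ Finset.Icc 1 n, ‖((ArithmeticFunction.moebius k : ℤ) : ℂ)‖ := norm_sum_le _ _
      _ ≤ ∑ _k ∈ Finset.Icc 1 n, (1 : ℝ) := Finset.sum_le_sum fun k _ => by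
          rw [Complex.norm_intCast, ← Int.cast_abs]
          exact_mod_cast ArithmeticFunction.abs_moebius_le_one
      _ = n := by simp
  have h2 := LSeries_eq_mul_integral (fun n => ((ArithmeticFunction.moebius n : ℤ) : ℂ))
    zero_le_one hs (ArithmeticFunction.LSeriesSummable_moebius_iff.2 hs) hO
  rw [hz] at h2
  have h3 : ∫ u in Ioi (1 : ℝ), ((Mx u : ℝ) : ℂ) * (u : ℂ) ^ (-(s + 1)) =
      ∫ t in Set.Ioi (1 : ℝ), (∑ k ∈ Finset.Icc 1 ⌊t⌋₊,
        ((ArithmeticFunction.moebius k : ℤ) : ℂ)) * (t : ℂ) ^ (-(s + 1)) := by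
    congr 1
    funext t
    unfold Mx
    push_cast
    rfl
  rw [h3, mul_inv, h2]
  field_simp

theorem gauss_line (h : ℝ) (hh : 0 < h) (x : ℝ) :
    ∫ t : ℝ, EE h x (⟨3 / 2, t⟩ : ℂ) = ((2 * Real.pi * gk h x : ℝ) : ℂ) := by
  have e : ∀ t : ℝ, EE h x (⟨3 / 2, t⟩ : ℂ) = Complex.exp (-((h : ℂ) ^ 2 / 2) * (t : ℂ) ^ 2 +
      (Complex.I * (3 * (h : ℂ) ^ 2 / 2 + x)) * t + (9 * (h : ℂ) ^ 2 / 8 + 3 * x / 2)) := by
    intro t
    unfold EE
    congr 1
    have : (⟨3 / 2, t⟩ : ℂ) = 3 / 2 + t * Complex.I := by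
      apply Complex.ext <;> simp
    rw [this]
    linear_combination ((h : ℂ) ^ 2 / 2 * t ^ 2) * Complex.I_sq
  simp_rw [e]
  have hre : (-((h : ℂ) ^ 2 / 2)).re < 0 := by
    rw [← Complex.ofReal_pow, show (-(((h ^ 2 : ℝ) : ℂ) / 2)) = ((-(h ^ 2 / 2) : ℝ) : ℂ) by
      push_cast; ring, Complex.ofReal_re]
    have : 0 < h ^ 2 := by positivity
    linarith
  rw [integral_cexp_quadratic hre]
  have hc : (h : ℂ) ≠ 0 := by exact_mod_cast hh.ne'
  have e2 : (9 * (h : ℂ) ^ 2 / 8 + 3 * x / 2) - (Complex.I * (3 * (h : ℂ) ^ 2 / 2 + x)) ^ 2 /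
      (4 * -((h : ℂ) ^ 2 / 2)) = ((-(x ^ 2 / (2 * h ^ 2)) : ℝ) : ℂ) := by
    rw [mul_pow, Complex.I_sq]
    push_cast
    field_simp
    ring
  have e3 : ((Real.pi : ℂ) / - -((h : ℂ) ^ 2 / 2)) ^ (1 / 2 : ℂ) =
      ((Real.sqrt (2 * Real.pi) / h : ℝ) : ℂ) := by
    have h1 : ((Real.pi : ℂ) / - -((h : ℂ) ^ 2 / 2)) = ((2 * Real.pi / h ^ 2 : ℝ) : ℂ) := by
      push_cast
      field_simp
    have h2 : (1 / 2 : ℂ) = ((1 / 2 : ℝ) : ℂ) := by push_cast; rfl
    rw [h1, h2, ← Complex.ofReal_cpow (by positivity), ← Real.sqrt_eq_rpow,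
      Real.sqrt_div (by positivity), Real.sqrt_sq hh.le]
  rw [e2, e3, ← Complex.ofReal_exp, ← Complex.ofReal_mul]
  congr 1
  unfold gk
  have hs : Real.sqrt (2 * Real.pi) ≠ 0 := by positivity
  have hs2 : Real.sqrt (2 * Real.pi) ^ 2 = 2 * Real.pi := Real.sq_sqrt (by positivity)
  rw [show (2 * Real.pi * ((h * Real.sqrt (2 * Real.pi))⁻¹ * Real.exp (-(x ^ 2 / (2 * h ^ 2))))) =
    (Real.sqrt (2 * Real.pi) ^ 2) * ((h * Real.sqrt (2 * Real.pi))⁻¹ *
      Real.exp (-(x ^ 2 / (2 * h ^ 2)))) by rw [hs2]]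
  field_simp

theorem norm_EE (h v t : ℝ) :
    ‖EE h v (⟨3 / 2, t⟩ : ℂ)‖ = Real.exp (9 * h ^ 2 / 8 + 3 * v / 2) *
      Real.exp (-(h ^ 2 / 2) * t ^ 2) := by
  unfold EE
  rw [Complex.norm_exp, ← Real.exp_add]
  congr 1
  have : (h : ℂ) ^ 2 / 2 * (⟨3 / 2, t⟩ : ℂ) ^ 2 + v * ⟨3 / 2, t⟩ =
      ((9 * h ^ 2 / 8 + 3 * v / 2 + -(h ^ 2 / 2) * t ^ 2 : ℝ) : ℂ) +
        ((h ^ 2 * 3 * t / 2 + v * t : ℝ) : ℂ) * Complex.I := by
    have h1 : (⟨3 / 2, t⟩ : ℂ) = 3 / 2 + t * Complex.I := by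
      apply Complex.ext <;> simp
    rw [h1]
    push_cast
    linear_combination ((h : ℂ) ^ 2 / 2 * t ^ 2) * Complex.I_sq
  rw [this]
  simp only [Complex.add_re, Complex.ofReal_re, Complex.re_ofReal_mul, Complex.I_re, mul_zero,
    add_zero]

/-- The double integrand. -/
noncomputable def FF (h v : ℝ) (t u : ℝ) : ℂ :=
  EE h v (⟨3 / 2, t⟩ : ℂ) * (((Mx u : ℝ) : ℂ) * (u : ℂ) ^ (-((⟨3 / 2, t⟩ : ℂ) + 1)))

theorem norm_FF_le (h v t u : ℝ) : ‖FF h v t u‖ ≤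
    (Real.exp (9 * h ^ 2 / 8 + 3 * v / 2) * Real.exp (-(h ^ 2 / 2) * t ^ 2)) *
      |u| ^ (-(3 / 2) : ℝ) := by
  unfold FF
  rw [norm_mul, norm_EE]
  refine mul_le_mul_of_nonneg_left ?_ (by positivity)
  rcases lt_or_ge u 1 with hu | hu
  · rw [Mx_of_lt hu]
    simp only [Complex.ofReal_zero, zero_mul, norm_zero]
    positivity
  · have hu0 : 0 < u := by linarith
    rw [norm_mul, Complex.norm_cpow_eq_rpow_re_of_pos hu0, Complex.norm_real, Real.norm_eq_abs,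
      abs_of_pos hu0]
    have hre : (-((⟨3 / 2, t⟩ : ℂ) + 1)).re = -(5 / 2) := by
      simp only [Complex.neg_re, Complex.add_re, Complex.one_re]; norm_num
    rw [hre]
    calc |Mx u| * u ^ (-(5 / 2) : ℝ) ≤ u * u ^ (-(5 / 2) : ℝ) := by
          gcongr; exact abs_Mx_le hu0.le
      _ = u ^ (1 : ℝ) * u ^ (-(5 / 2) : ℝ) := by rw [Real.rpow_one]
      _ = u ^ (-(3 / 2) : ℝ) := by rw [← Real.rpow_add hu0]; norm_num

theorem integrable_FF (h v : ℝ) (hh : 0 < h) :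
    Integrable (Function.uncurry (FF h v)) (volume.prod (volume.restrict (Ioi (1 : ℝ)))) := by
  have h1 : Integrable (fun t : ℝ => Real.exp (9 * h ^ 2 / 8 + 3 * v / 2) *
      Real.exp (-(h ^ 2 / 2) * t ^ 2)) :=
    (integrable_exp_neg_mul_sq (by positivity)).const_mul _
  have h2 : Integrable (fun u : ℝ => |u| ^ (-(3 / 2) : ℝ)) (volume.restrict (Ioi (1 : ℝ))) := by
    have h3 := integrableOn_Ioi_rpow_of_lt (a := (-(3 / 2) : ℝ)) (c := 1) (by norm_num) one_pos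
    refine (integrableOn_congr_fun (fun u hu => ?_) measurableSet_Ioi).2 h3
    rw [abs_of_pos (lt_trans one_pos hu)]
  refine (h1.mul_prod h2).mono' ?_ (Filter.Eventually.of_forall fun z => norm_FF_le h v z.1 z.2)
  refine Measurable.aestronglyMeasurable ?_
  have hmk : Measurable (fun t : ℝ => (⟨3 / 2, t⟩ : ℂ)) := by
    have : (fun t : ℝ => (⟨3 / 2, t⟩ : ℂ)) = fun t : ℝ => (3 / 2 : ℂ) + t * Complex.I := by
      funext t
      apply Complex.ext <;> simp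
    rw [this]
    fun_prop
  have hM := measurable_Mx
  unfold Function.uncurry FF EE
  have hz : Measurable (fun z : ℝ × ℝ => (⟨3 / 2, z.1⟩ : ℂ)) := hmk.comp measurable_fst
  have hz2 : Measurable (fun z : ℝ × ℝ => (z.2 : ℂ)) := Complex.measurable_ofReal.comp measurable_snd
  have hz3 : Measurable (fun z : ℝ × ℝ => ((Mx z.2 : ℝ) : ℂ)) :=
    Complex.measurable_ofReal.comp (hM.comp measurable_snd)
  refine Measurable.mul ?_ (hz3.mul (hz2.pow (hz.add_const 1).neg))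
  exact Complex.measurable_exp.comp (((hz.pow_const 2).const_mul _).add (hz.const_mul _))

theorem integral_FF_u (h v t : ℝ) :
    ∫ u in Ioi (1 : ℝ), FF h v t u = GG h v (⟨3 / 2, t⟩ : ℂ) := by
  unfold FF GG
  rw [integral_const_mul, inv_zeta (s := (⟨3 / 2, t⟩ : ℂ)) (by show (1 : ℝ) < 3 / 2; norm_num)]
  exact (div_eq_mul_inv _ _).symm

theorem integral_FF_t (h v u : ℝ) (hh : 0 < h) (hu : 0 < u) :
    ∫ t : ℝ, FF h v t u = ((2 * Real.pi * (Mx u * u⁻¹ * gk h (v - Real.log u)) : ℝ) : ℂ) := by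
  have e : ∀ t : ℝ, FF h v t u = ((Mx u * u⁻¹ : ℝ) : ℂ) *
      EE h (v - Real.log u) (⟨3 / 2, t⟩ : ℂ) := by
    intro t
    unfold FF EE
    have hu' : (u : ℂ) ≠ 0 := by exact_mod_cast hu.ne'
    rw [Complex.cpow_def_of_ne_zero hu', ← Complex.ofReal_log hu.le]
    have h1 : ((u⁻¹ : ℝ) : ℂ) = Complex.exp (-(Real.log u : ℂ)) := by
      rw [← Complex.ofReal_neg, ← Complex.ofReal_exp, Real.exp_neg, Real.exp_log hu]
    rw [Complex.ofReal_mul, h1]
    rw [mul_left_comm, mul_assoc, ← Complex.exp_add, ← Complex.exp_add]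
    congr 2
    push_cast
    ring
  simp_rw [e]
  rw [integral_const_mul, gauss_line h hh]
  push_cast
  ring

theorem Sm_eq (h v : ℝ) :
    Sm h v = ∫ u in Ioi (1 : ℝ), Mx u * u⁻¹ * gk h (v - Real.log u) := by
  have himg : Real.exp '' (Ioi (0 : ℝ)) = Ioi 1 := by
    ext u
    constructor
    · rintro ⟨y, hy, rfl⟩
      exact Real.one_lt_exp_iff.2 hy
    · intro hu
      have hu' : (1 : ℝ) < u := hu
      exact ⟨Real.log u, Real.log_pos hu', Real.exp_log (by linarith)⟩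
  have h1 := integral_image_eq_integral_abs_deriv_smul (s := Ioi (0 : ℝ)) (f := Real.exp)
    (f' := Real.exp) measurableSet_Ioi (fun x _ => (Real.hasDerivAt_exp x).hasDerivWithinAt)
    Real.exp_injective.injOn (fun u => Mx u * u⁻¹ * gk h (v - Real.log u))
  rw [himg] at h1
  rw [h1]
  have h2 : ∀ y : ℝ, |Real.exp y| • (Mx (Real.exp y) * (Real.exp y)⁻¹ *
      gk h (v - Real.log (Real.exp y))) = Mx (Real.exp y) * gk h (v - y) := by
    intro y
    rw [Real.log_exp, abs_of_pos (Real.exp_pos y), smul_eq_mul]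
    have := (Real.exp_pos y).ne'
    field_simp
  simp_rw [h2]
  rw [← integral_Ici_eq_integral_Ioi, setIntegral_eq_integral_of_forall_compl_eq_zero]
  · unfold Sm
    rw [← integral_sub_left_eq_self (fun y => Mx (Real.exp y) * gk h (v - y)) volume v]
    congr 1
    funext w
    rw [sub_sub_cancel]
  · intro y hy
    have : y < 0 := by simpa using hy
    rw [Mx_of_lt (by simpa using this), zero_mul]

theorem t_INV : T_INV := by
  intro h v hh
  have hF := integrable_FF h v hh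
  constructor
  · have h1 := hF.integral_prod_left
    refine h1.congr (Filter.Eventually.of_forall fun t => ?_)
    exact integral_FF_u h v t
  · have h1 := integral_integral_swap hF
    have h2 : ∫ t : ℝ, ∫ u in Ioi (1 : ℝ), FF h v t u = ∫ t : ℝ, GG h v (⟨3 / 2, t⟩ : ℂ) := by
      congr 1
      funext t
      exact integral_FF_u h v t
    have h3 : ∫ u in Ioi (1 : ℝ), ∫ t : ℝ, FF h v t u =
        ((2 * Real.pi * Sm h v : ℝ) : ℂ) := by
      rw [setIntegral_congr_fun measurableSet_Ioi (fun u hu =>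
        integral_FF_t h v u hh (lt_trans one_pos hu)), integral_complex_ofReal, integral_const_mul,
        Sm_eq]
    rw [h2, h3] at h1
    rw [h1]
    have : (Real.pi : ℂ) ≠ 0 := by exact_mod_cast Real.pi_ne_zero
    push_cast
    field_simp

end Pool.Agent.W374.WM
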